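import Pool.Agent.MP_1c2b6e_al.Mg.ConjMain

namespace Pool.Agent.Results.MP_1c2b6e_al.Involutions

open Pool.Agent.MP_1c2b6e_al

/-- Genus zero: `N_Σ / Σ` has an element `c` of order two such that every non-trivial element of
finite order is conjugate to `c` (and has cyclotomic character `-1`). -/
theorem result (n : ℕ) (hn : 4 ≤ n) (G : Type) [Group G] [TopologicalSpace G]
    [IsTopologicalGroup G] [CompactSpace G] [TotallyDisconnectedSpace G]
    (l : Fin n → G) (hl : IsStdBasis l) :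
    ∃ c : NQuot (Sigma l), orderOf c = 2 ∧
      ∀ x : NQuot (Sigma l), IsOfFinOrder x → x ≠ 1 →
        IsConj c x ∧ ∀ φ : frakS l, Represents l φ x → HasChar l φ (-1) := by
  obtain ⟨e, he⟩ := hl
  obtain rfl : l = fun i => e (gen n i) := funext he
  have hb := (isBasis_gen n).map e
  have h3 : 3 ≤ n := by omega
  obtain ⟨c, hc⟩ := exists_order_two hb h3
  refine ⟨c, hc, fun x hx h1 => ?_⟩
  obtain ⟨h2, h4⟩ := main hb h3 x hx h1
  exact ⟨main_conj hb hn c x hc h2, fun φ ⟨h, hφ⟩ => h4 ⟨_, h⟩ φ hφ rfl⟩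

end Pool.Agent.Results.MP_1c2b6e_al.Involutions
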